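import Pool.Agent.J4H78.HG.Stm3

set_option autoImplicit false

/-! # Project HG3: the classes and the intervals (CMP) -/

open NumberField

namespace Pool.Agent.J4H82.HG

open Pool.Agent.J4H78.HG

theorem la_mul {K : Type} [Field K] [NumberField K] (w w' : InfinitePlace K) {x y : K}
    (hx : x ≠ 0) (hy : y ≠ 0) : la w w' (x * y) = la w w' x + la w w' y := by
  unfold la
  rw [map_mul, map_mul, Real.log_mul ((map_ne_zero w).2 hx) ((map_ne_zero w).2 hy),
    Real.log_mul ((map_ne_zero w').2 hx) ((map_ne_zero w').2 hy)]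
  ring

theorem la_zpow {K : Type} [Field K] [NumberField K] (w w' : InfinitePlace K) (u : (𝓞 K)ˣ) (j : ℤ) :
    la w w' (((u ^ j : (𝓞 K)ˣ) : 𝓞 K) : K) = j * la w w' ((u : 𝓞 K) : K) := by
  have h1 : ((((u ^ j : (𝓞 K)ˣ) : 𝓞 K) : K)) = (((u : 𝓞 K) : K)) ^ j :=
    NumberField.Units.coe_zpow u j
  unfold la
  rw [h1, map_zpow₀, map_zpow₀, Real.log_zpow, Real.log_zpow]
  ring

theorem t_CMP : S_CMP := by
  classical
  intro K _ _ w w' R hR S m 𝔟 t l hl hlR
  obtain ⟨hR0, ⟨u, hu⟩, -⟩ := hR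
  have hRpos : 0 < R := by linarith
  unfold cls cnt
  constructor
  · have key : ∀ f : Fin m → (S : Set (Ideal (𝓞 K))), (∃ a b : 𝓞 K, a ≠ 0 ∧ b ≠ 0 ∧
        Ideal.span {a} * ∏ j, (f j : Ideal (𝓞 K)) = Ideal.span {b} * 𝔟) →
        (∃ a b : 𝓞 K, a ≠ 0 ∧ b ≠ 0 ∧
          Ideal.span {a} * ∏ j, (f j : Ideal (𝓞 K)) = Ideal.span {b} * 𝔟 ∧
          t ≤ la w w' ((b : K) / (a : K)) ∧ la w w' ((b : K) / (a : K)) ≤ t + l) ∨
        (∃ a b : 𝓞 K, a ≠ 0 ∧ b ≠ 0 ∧
          Ideal.span {a} * ∏ j, (f j : Ideal (𝓞 K)) = Ideal.span {b} * 𝔟 ∧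
          t + l ≤ la w w' ((b : K) / (a : K)) ∧ la w w' ((b : K) / (a : K)) ≤ t + l + (R - l)) := by
      rintro f ⟨a, b, ha, hb, hab⟩
      have ha' : (a : K) ≠ 0 := by
        intro h
        exact ha (RingOfIntegers.coe_eq_zero_iff.1 h)
      have hb' : (b : K) ≠ 0 := by
        intro h
        exact hb (RingOfIntegers.coe_eq_zero_iff.1 h)
      set x0 := la w w' ((b : K) / (a : K)) with hx0
      set k : ℤ := -⌊(x0 - t) / R⌋ with hk
      have h1 : (⌊(x0 - t) / R⌋ : ℝ) * R ≤ x0 - t := by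
        have h2 := Int.floor_le ((x0 - t) / R)
        rwa [le_div_iff₀ hRpos] at h2
      have h3 : x0 - t < ((⌊(x0 - t) / R⌋ : ℝ) + 1) * R := by
        have h4 := Int.lt_floor_add_one ((x0 - t) / R)
        rwa [div_lt_iff₀ hRpos] at h4
      have hval : la w w' (((((u ^ k : (𝓞 K)ˣ) : 𝓞 K) * b : 𝓞 K) : K) / (a : K)) =
          x0 - (⌊(x0 - t) / R⌋ : ℝ) * R := by
        have hun : (((u ^ k : (𝓞 K)ˣ) : 𝓞 K) : K) ≠ 0 := by
          intro h
          exact (u ^ k).ne_zero (RingOfIntegers.coe_eq_zero_iff.1 h)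
        have hmul : (((((u ^ k : (𝓞 K)ˣ) : 𝓞 K) * b : 𝓞 K)) : K) =
            (((u ^ k : (𝓞 K)ˣ) : 𝓞 K) : K) * (b : K) := map_mul _ _ _
        rw [hmul, mul_div_assoc, la_mul w w' hun (div_ne_zero hb' ha'), la_zpow, hu, hk]
        push_cast
        ring
      have hspan : Ideal.span {((u ^ k : (𝓞 K)ˣ) : 𝓞 K) * b} = Ideal.span {b} :=
        Ideal.span_singleton_mul_left_unit (u ^ k).isUnit b
      have hub : ((u ^ k : (𝓞 K)ˣ) : 𝓞 K) * b ≠ 0 := mul_ne_zero (u ^ k).ne_zero hb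
      by_cases h5 : x0 - (⌊(x0 - t) / R⌋ : ℝ) * R ≤ t + l
      · left
        refine ⟨a, _, ha, hub, by rw [hspan]; exact hab, ?_, ?_⟩
        · rw [hval]
          linarith
        · rw [hval]
          exact h5
      · right
        refine ⟨a, _, ha, hub, by rw [hspan]; exact hab, ?_, ?_⟩
        · rw [hval]
          linarith
        · rw [hval]
          linarith
    refine le_trans ?_ (Set.ncard_union_le _ _)
    exact Set.ncard_le_ncard (fun f hf => key f hf) (Set.toFinite _)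
  · refine Set.ncard_le_ncard ?_ (Set.toFinite _)
    rintro f ⟨a, b, ha, hb, h, -, -⟩
    exact ⟨a, b, ha, hb, h⟩

end Pool.Agent.J4H82.HG
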